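import Mathlib

namespace Pool.Agent.H.MP_7607f9_an

open Filter Topology Finset

noncomputable def KK : ℕ → ℝ
  | k => 16 * 2 ^ k * (1 + ∑ i : Fin k, KK i)

theorem KK_eq (k : ℕ) : KK k = 16 * 2 ^ k * (1 + ∑ i ∈ range k, KK i) := by
  rw [KK, Finset.sum_range]

theorem KK_pos (k : ℕ) : 0 < KK k := by
  induction k using Nat.strong_induction_on with
  | _ k ih =>
    have : 0 ≤ ∑ i ∈ range k, KK i := sum_nonneg fun i hi => (ih i (mem_range.mp hi)).le
    rw [KK_eq]; positivity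

variable {A : Type} [NormedCommRing A] [CompleteSpace A]

theorem neumann (K : ℕ → ℝ) (l : ℕ → ℕ → A) (η d v w : ℕ → A) (B C : A)
    (h1 : ∀ k, ∑ i ∈ range k, ‖l k i‖ * K i + ‖η k‖ * K (k + 1) ≤ K k / 2)
    (hd : ∀ k, ‖d k‖ ≤ K k) (hv : ∀ k, ‖v k‖ ≤ K k) (hw : ∀ k, ‖w k‖ ≤ K k)
    (e : ∀ k, d k = v k * B + w k * C + (∑ i ∈ range k, l k i * d i + η k * d (k + 1))) (k : ℕ) :
    ∃ x y, ‖x‖ ≤ 2 * K k ∧ ‖y‖ ≤ 2 * K k ∧ d k = x * B + y * C := by
  let M : (ℕ → A) → ℕ → A := fun u k => ∑ i ∈ range k, l k i * u i + η k * u (k + 1)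
  have lin : ∀ X Y u : ℕ → A, M (fun k => X k * B + Y k * C + u k) =
      fun k => M X k * B + M Y k * C + M u k := by
    intro X Y u
    funext k
    simp only [M, mul_add, add_mul, sum_add_distrib, sum_mul, mul_assoc]
    abel
  have lin' : ∀ n (X Y u : ℕ → A), M^[n] (fun k => X k * B + Y k * C + u k) =
      fun k => M^[n] X k * B + M^[n] Y k * C + M^[n] u k := by
    intro n
    induction n with
    | zero => intros; rfl
    | succ n ih => intro X Y u; simp only [Function.iterate_succ_apply, lin, ih]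
  have bd : ∀ u : ℕ → A, (∀ k, ‖u k‖ ≤ K k) → ∀ n k, ‖M^[n] u k‖ ≤ K k * (1 / 2) ^ n := by
    intro u hu n
    induction n with
    | zero => simpa using hu
    | succ n ih =>
      intro k
      rw [Function.iterate_succ_apply']
      calc _ ≤ ∑ i ∈ range k, ‖l k i‖ * (K i * (1 / 2) ^ n) + ‖η k‖ * (K (k + 1) * (1 / 2) ^ n) :=
            norm_add_le_of_le (norm_sum_le_of_le _ fun i _ => (norm_mul_le _ _).trans (by
              gcongr; exact ih i)) ((norm_mul_le _ _).trans (by gcongr; exact ih _))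
        _ = (∑ i ∈ range k, ‖l k i‖ * K i + ‖η k‖ * K (k + 1)) * (1 / 2) ^ n := by
            simp only [add_mul, sum_mul, mul_assoc]
        _ ≤ K k / 2 * (1 / 2) ^ n := by gcongr; exact h1 k
        _ = _ := by ring
  have hs : HasSum (fun n : ℕ => K k * (1 / 2 : ℝ) ^ n) (2 * K k) := by
    rw [mul_comm]; exact hasSum_geometric_two.mul_left _
  have sm : ∀ u : ℕ → A, (∀ k, ‖u k‖ ≤ K k) → Summable fun n => M^[n] u k := fun u hu =>
    .of_norm_bounded hs.summable fun n => bd u hu n k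
  refine ⟨∑' n, M^[n] v k, ∑' n, M^[n] w k, tsum_of_norm_bounded hs fun n => bd v hv n k,
    tsum_of_norm_bounded hs fun n => bd w hw n k, ?_⟩
  have st : ∀ n, d k = (∑ m ∈ range n, M^[m] v k) * B + (∑ m ∈ range n, M^[m] w k) * C +
      M^[n] d k := by
    intro n
    induction n with
    | zero => simp
    | succ n ih =>
      have := congrFun (lin' n v w (M d)) k
      rw [← show d = fun k => v k * B + w k * C + M d k from funext e] at this
      rw [ih, this, sum_range_succ, sum_range_succ, Function.iterate_succ_apply]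
      ring
  have t := (((sm v hv).hasSum.tendsto_sum_nat.mul_const B).add
    ((sm w hw).hasSum.tendsto_sum_nat.mul_const C)).add (sm d hd).tendsto_atTop_zero
  rw [add_zero] at t
  exact tendsto_nhds_unique tendsto_const_nhds (t.congr fun n => (st n).symm)

omit [CompleteSpace A] in
theorem geo [NormOneClass A] (a q : A) (ha : ‖a‖ ≤ 1) (hq : ‖q‖ ≤ 1 / 2) (N : ℕ) :
    ‖q ^ N‖ ≤ (1 / 2) ^ N ∧ ∃ u, ‖u‖ ≤ 2 - 2 * (1 / 2) ^ N ∧ a ^ N = q ^ N + (a - q) * u := by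
  have b : ∀ N, ‖q ^ N‖ ≤ (1 / 2) ^ N := fun N => (norm_pow_le q N).trans (by gcongr)
  refine ⟨b N, ?_⟩
  induction N with
  | zero => exact ⟨0, by simp, by simp⟩
  | succ N ih =>
    obtain ⟨u, h1, h2⟩ := ih
    refine ⟨a * u + q ^ N, ?_, by rw [pow_succ, h2]; ring⟩
    have := norm_add_le_of_le ((norm_mul_le a u).trans
      (mul_le_of_le_one_left (norm_nonneg u) ha)) (b N)
    rw [pow_succ]; linarith

theorem core [NormOneClass A] [NormedAlgebra ℂ A] (φ : A →L[ℂ] ℂ) : ∃ N : ℕ → ℕ,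
    ∀ d h : ℕ → A, (∀ k, ‖d k‖ ≤ 1) → (∀ k, ‖h k‖ ≤ 1) → (∀ k, φ (d k) = 0) →
      (∀ k, d k = h k * d (k + 1) ^ (N k + 1)) → ∃ B C, φ B = 0 ∧ φ C = 0 ∧ ∀ k, ∃ x y,
        ‖x‖ ≤ 2 * KK k ∧ ‖y‖ ≤ 2 * KK k ∧ d k = x * B + y * C := by
  choose N hN using fun k => exists_pow_lt_of_lt_one (div_pos (div_pos (KK_pos k) four_pos)
    (KK_pos (k + 1))) (show (1 / 2 : ℝ) < 1 by norm_num)
  refine ⟨N, fun d h hd hh hφ e => ?_⟩
  have hs : ∀ k, HasSum (fun i : ℕ => (1 / 2 : ℝ) ^ k * (1 / 4) ^ i) ((1 / 2) ^ k * (4 / 3)) :=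
    fun k => by
      rw [show (4 / 3 : ℝ) = (1 - 1 / 4)⁻¹ by norm_num]
      exact (hasSum_geometric_of_lt_one (by norm_num) (by norm_num)).mul_left _
  have nb : ∀ k i, ‖(1 / 2 : ℂ) ^ (k + 2 * i) • d (k + 2 * i)‖ ≤ (1 / 2 : ℝ) ^ k * (1 / 4) ^ i := by
    intro k i
    rw [norm_smul, norm_pow, pow_add, pow_mul]
    refine (mul_le_of_le_one_right (by positivity) (hd _)).trans (le_of_eq ?_)
    norm_num
  have sm : ∀ k, Summable fun i => (1 / 2 : ℂ) ^ (k + 2 * i) • d (k + 2 * i) := fun k =>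
    .of_norm_bounded (hs k).summable (nb k)
  let P : ℕ → A := fun k => ∑' i, (1 / 2 : ℂ) ^ (k + 2 * i) • d (k + 2 * i)
  have P1 : ∀ k, ‖P k‖ ≤ (1 / 2) ^ k * (4 / 3) := fun k => tsum_of_norm_bounded (hs k) (nb k)
  have P2 : ∀ k, P k = (1 / 2 : ℂ) ^ k • d k + P (k + 2) := fun k => by
    simp only [P]
    rw [(sm k).tsum_eq_zero_add]
    congr 1
    exact tsum_congr fun i => by rw [show k + 2 * (i + 1) = k + 2 + 2 * i by ring]
  have P3 : ∀ k, φ (P k) = 0 := fun k => by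
    simp only [P]
    rw [φ.map_tsum (sm k)]; simp [hφ]
  have P4 : ∀ k, ∃ (α β : A) (m : ℕ → A), ‖α‖ ≤ 1 ∧ ‖β‖ ≤ 1 ∧ (∀ i, ‖m i‖ ≤ 1) ∧
      P (k + 1) = α * P 0 + β * P 1 + ∑ i ∈ range k, m i * d i := by
    intro k
    induction k using Nat.twoStepInduction with
    | zero => exact ⟨0, 1, 0, by simp, by simp, by simp, by simp⟩
    | one => exact ⟨1, 0, -1, by simp, by simp, by simp, by rw [P2 0]; simp⟩
    | more k ih _ =>
      obtain ⟨α, β, m, h1, h2, h3, h4⟩ := ih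
      refine ⟨α, β, fun i => if i < k then m i else if i = k then 0 else
        -((1 / 2 : ℂ) ^ (k + 1) • 1), h1, h2, fun i => ?_, ?_⟩
      · dsimp only
        split_ifs
        · exact h3 i
        · simp
        · rw [norm_neg, norm_smul, norm_one, mul_one, norm_pow]
          exact pow_le_one₀ (norm_nonneg _) (by norm_num)
      · dsimp only
        rw [sum_range_succ, sum_range_succ, sum_congr rfl fun i hi => by
          rw [if_pos (mem_range.mp hi)], if_neg (lt_irrefl k), if_pos rfl, if_neg (by omega),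
          if_neg (by omega), ← add_assoc, ← add_assoc, ← h4, P2 (k + 1)]
        simp
  choose α β m a1 a2 a3 a4 using P4
  have hq : ∀ k, ‖-((2 : ℂ) ^ (k + 1) • P (k + 3))‖ ≤ 1 / 2 := fun k => by
    rw [norm_neg, norm_smul, norm_pow, Complex.norm_two]
    refine (mul_le_mul_of_nonneg_left (P1 _) (by positivity)).trans ?_
    rw [show k + 3 = k + 1 + 2 by ring, pow_add (1 / 2 : ℝ) (k + 1), ← mul_assoc, ← mul_assoc,
      ← mul_pow]
    norm_num
  choose b1 u b2 b3 using fun k => geo (d (k + 1)) _ (hd _) (hq k) (N k)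
  let c : ℕ → A := fun k => (2 : ℂ) ^ (k + 1) • (h k * d (k + 1) * u k)
  have le1 : ∀ {x y : A} {r : ℝ}, ‖x‖ ≤ r → ‖y‖ ≤ 1 → ‖x * y‖ ≤ r := fun a b =>
    (norm_mul_le _ _).trans ((mul_le_of_le_one_right (norm_nonneg _) b).trans a)
  have hc : ∀ k, ‖c k‖ ≤ 4 * 2 ^ k := fun k => by
    have : ‖h k * d (k + 1) * u k‖ ≤ 2 := by
      rw [mul_comm]
      exact le1 ((b2 k).trans (sub_le_self _ (by positivity))) (le1 (hh k) (hd _))
    rw [norm_smul, norm_pow, Complex.norm_two]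
    calc _ ≤ (2 : ℝ) ^ (k + 1) * 2 := by gcongr
      _ = _ := by ring
  have s0 : ∀ k, 0 ≤ ∑ i ∈ range k, KK i := fun k => sum_nonneg fun i _ => (KK_pos i).le
  have hK : ∀ k, 4 * 2 ^ k ≤ KK k := fun k => by
    have : (0 : ℝ) < 2 ^ k := by positivity
    rw [KK_eq]; nlinarith [s0 k]
  refine ⟨P 0, P 1, P3 0, P3 1, neumann KK (fun k i => c k * m k i)
    (fun k => (-((2 : ℂ) ^ (k + 1) • P (k + 3))) ^ N k * h k) d (fun k => c k * α k)
    (fun k => c k * β k) _ _ (fun k => ?_) (fun k => (hd k).trans (le_trans ?_ (hK k)))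
    (fun k => (le1 (hc k) (a1 k)).trans (hK k)) (fun k => (le1 (hc k) (a2 k)).trans (hK k))
    fun k => ?_⟩
  · have e1 : ∑ i ∈ range k, ‖c k * m k i‖ * KK i ≤ 4 * 2 ^ k * ∑ i ∈ range k, KK i := by
      rw [mul_sum]
      exact sum_le_sum fun i _ => mul_le_mul_of_nonneg_right (le1 (hc k) (a3 k i)) (KK_pos i).le
    have e2 := mul_le_mul_of_nonneg_right (le1 (b1 k) (hh k)) (KK_pos (k + 1)).le
    have e3 := (lt_div_iff₀ (KK_pos (k + 1))).mp (hN k)
    have e4 := KK_eq k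
    have : (0 : ℝ) < 2 ^ k := by positivity
    nlinarith
  · have : (1 : ℝ) ≤ 2 ^ k := one_le_pow₀ (by norm_num)
    linarith
  · have e1 : d (k + 1) - -((2 : ℂ) ^ (k + 1) • P (k + 3)) = (2 : ℂ) ^ (k + 1) • P (k + 1) := by
      rw [P2 (k + 1), smul_add, smul_smul, ← mul_pow]; simp
    have e2 : c k * P (k + 1) = h k * d (k + 1) * u k * (2 : ℂ) ^ (k + 1) • P (k + 1) := by
      rw [smul_mul_assoc, mul_smul_comm]
    calc d k = c k * P (k + 1) + (-((2 : ℂ) ^ (k + 1) • P (k + 3))) ^ N k * h k * d (k + 1) := by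
          rw [e2, ← e1]
          conv_lhs => rw [e k, pow_succ, b3 k]
          ring
      _ = _ := by
          rw [a4 k, mul_add, mul_add, mul_sum]
          simp only [mul_assoc, add_assoc]

theorem main [NormOneClass A] [NormedAlgebra ℂ A] (φ : A →L[ℂ] ℂ)
    (hφ : ∀ g x, φ g = 0 → φ (g * x) = 0) (δ : ℚ≥0 → A) (d1 : ∀ s t, δ (s + t) = δ s * δ t)
    (d2 : ∀ t, ‖δ t‖ ≤ 1) (d3 : ∀ t, 0 < t → φ (δ t) = 0) (u : ℕ → A) (m : ℕ → ℝ)
    (m0 : ∀ n, 0 ≤ m n) (hm : Summable m) (hu : ∀ n, ∀ᶠ N : ℕ in atTop, ∃ g, φ g = 0 ∧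
      ‖g‖ ≤ m n ∧ u n = g * δ (N : ℚ≥0)⁻¹) (a : A) (ha : HasSum u a) :
    ∃ x B y C, φ x = 0 ∧ φ B = 0 ∧ φ y = 0 ∧ φ C = 0 ∧ a = x * B + y * C := by
  obtain ⟨N, hN⟩ := core φ
  obtain ⟨p, p1, p2⟩ := extraction_forall_of_eventually fun j : ℕ =>
    (tendsto_sum_nat_add m).eventually (gt_mem_nhds
      (div_pos (pow_pos (show (0 : ℝ) < 1 / 2 by norm_num) j) (KK_pos (j + 1))))
  let q : ℕ → ℕ := fun j => Nat.rec 0 (fun j _ => p j) j
  have q1 : ∀ j, q j ≤ q (j + 1) := by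
    rintro (_ | j)
    · exact Nat.zero_le _
    · exact p1.monotone (Nat.le_succ j)
  have blk : ∀ S : Finset ℕ, ∃ T : ℕ, ∀ N ≥ T, ∃ g, φ g = 0 ∧ ‖g‖ ≤ ∑ n ∈ S, m n ∧
      ∑ n ∈ S, u n = g * δ (N : ℚ≥0)⁻¹ := by
    intro S
    refine eventually_atTop.mp (((eventually_all_finset S).mpr fun n _ => hu n).mono fun N h => ?_)
    choose! g g1 g2 g3 using h
    exact ⟨∑ n ∈ S, g n, by rw [map_sum]; exact sum_eq_zero g1, norm_sum_le_of_le _ g2,
      by rw [sum_mul]; exact sum_congr rfl g3⟩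
  choose T hT using fun j => blk (Ico (q j) (q (j + 1)))
  obtain ⟨n, n0, ns⟩ : ∃ n : ℕ → ℕ, n 0 = T 0 + 1 ∧ ∀ j, n (j + 1) = (N j + 1) * n j + T (j + 1) :=
    ⟨fun j => Nat.rec (T 0 + 1) (fun j r => (N j + 1) * r + T (j + 1)) j, rfl, fun _ => rfl⟩
  have n1 : ∀ j, 0 < n j := fun j => by
    induction j with
    | zero => omega
    | succ j ih => rw [ns]; positivity
  have n2 : ∀ j, T j ≤ n j := by
    rintro (_ | j)
    · omega
    · rw [ns]; omega
  have pw : ∀ t (k : ℕ), δ t ^ (k + 1) = δ ((k + 1 : ℕ) * t) := fun t k => by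
    induction k with
    | zero => simp
    | succ k ih => rw [pow_succ, ih, ← d1]; congr 1; push_cast; ring
  obtain ⟨B, C, hB, hC, H⟩ := hN (fun j => δ ((n j : ℕ) : ℚ≥0)⁻¹)
    (fun j => δ (((n j : ℕ) : ℚ≥0)⁻¹ - (N j + 1 : ℕ) * ((n (j + 1) : ℕ) : ℚ≥0)⁻¹)) (fun _ => d2 _)
    (fun _ => d2 _) (fun j => d3 _ (inv_pos.mpr (by exact_mod_cast n1 j))) fun j => by
      rw [pw, ← d1, tsub_add_cancel_of_le]
      have a1 : (0 : ℚ≥0) < n j := by exact_mod_cast n1 j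
      have a2 : (0 : ℚ≥0) < n (j + 1) := by exact_mod_cast n1 (j + 1)
      rw [← div_eq_mul_inv, div_le_iff₀ a2, inv_mul_eq_div, le_div_iff₀ a1]
      exact_mod_cast (ns j).ge.trans' (Nat.le_add_right _ _)
  choose x y x1 y1 xy using H
  choose g g1 g2 g3 using fun j => hT j (n j) (n2 j)
  have sm : ∀ x : ℕ → A, (∀ j, ‖x j‖ ≤ 2 * KK j) → Summable fun j => g j * x j := by
    intro x hx
    rw [← summable_nat_add_iff 1]
    refine .of_norm_bounded (summable_geometric_two.mul_left 2) fun j => ?_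
    have e1 : ∑ n ∈ Ico (q (j + 1)) (q (j + 1 + 1)), m n ≤ ∑' k, m (k + p j) := by
      rw [sum_Ico_eq_sum_range]
      simp only [add_comm (q (j + 1))]
      exact ((summable_nat_add_iff _).mpr hm).sum_le_tsum _ fun _ _ => m0 _
    have e2 := (lt_div_iff₀ (KK_pos (j + 1))).mp (p2 j)
    calc _ ≤ (∑' k, m (k + p j)) * (2 * KK (j + 1)) := (norm_mul_le _ _).trans
          (mul_le_mul ((g2 _).trans e1) (hx _) (norm_nonneg _) (tsum_nonneg fun _ => m0 _))
      _ ≤ _ := by linarith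
  have z : ∀ x : ℕ → A, (∀ j, ‖x j‖ ≤ 2 * KK j) → φ (∑' j, g j * x j) = 0 := fun x hx => by
    rw [φ.map_tsum (sm x hx)]; simp [hφ _ _ (g1 _)]
  refine ⟨_, B, _, C, z x x1, hB, z y y1, hC, ?_⟩
  have t1 := (((sm x x1).hasSum.mul_right B).add ((sm y y1).hasSum.mul_right C)).tendsto_sum_nat
  have t2 := ha.tendsto_sum_nat.comp
    ((tendsto_add_atTop_iff_nat (f := q) 1).mp p1.tendsto_atTop)
  refine tendsto_nhds_unique t2 (t1.congr fun J => ?_)
  induction J with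
  | zero => rfl
  | succ J ih =>
    rw [sum_range_succ, ih, mul_assoc, mul_assoc, ← mul_add, ← xy, ← g3]
    exact sum_range_add_sum_Ico _ (q1 J)

end Pool.Agent.H.MP_7607f9_an
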