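import Pool.Agent.H.MP_7607f9_an.A

namespace Pool.Agent.H.MP_7607f9_an

open Filter Topology Finset

noncomputable abbrev E := lp (fun _ : ℚ≥0 => ℂ) 1

theorem sm1 (x : E) : HasSum (fun i => ‖x i‖) ‖x‖ := by
  simpa using lp.hasSum_norm (p := 1) (by simp) x

noncomputable def e (t : ℚ≥0) : E := lp.single 1 t 1

theorem e_norm (t : ℚ≥0) : ‖e t‖ = 1 := by rw [e, lp.norm_single one_pos, norm_one]

theorem e_ap (t u : ℚ≥0) : e t u = if u = t then 1 else 0 := by
  rw [e, lp.single_apply, Pi.single_apply]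

section
variable {F : Type} [NormedAddCommGroup F] [NormedSpace ℂ F] [CompleteSpace F]

omit [CompleteSpace F] in
theorem Lb (v : ℚ≥0 → F) (hv : ∀ i, ‖v i‖ ≤ 1) (x : E) (i : ℚ≥0) : ‖x i • v i‖ ≤ ‖x i‖ := by
  rw [norm_smul]; exact mul_le_of_le_one_right (norm_nonneg _) (hv i)

theorem Ls (v : ℚ≥0 → F) (hv : ∀ i, ‖v i‖ ≤ 1) (x : E) : Summable fun i => x i • v i :=
  .of_norm_bounded (sm1 x).summable (Lb v hv x)

noncomputable def L (v : ℚ≥0 → F) (hv : ∀ i, ‖v i‖ ≤ 1) : E →L[ℂ] F :=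
  LinearMap.mkContinuous
    { toFun := fun x => ∑' i, x i • v i
      map_add' := fun x y => by
        rw [← (Ls v hv x).tsum_add (Ls v hv y)]
        exact tsum_congr fun i => add_smul _ _ _
      map_smul' := fun c x => by
        rw [← (Ls v hv x).tsum_const_smul]
        exact tsum_congr fun i => mul_smul _ _ _ } 1
    fun x => by rw [one_mul]; exact tsum_of_norm_bounded (sm1 x) (Lb v hv x)

theorem L_norm (v : ℚ≥0 → F) (hv : ∀ i, ‖v i‖ ≤ 1) : ‖L v hv‖ ≤ 1 :=
  LinearMap.mkContinuous_norm_le _ zero_le_one _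

theorem L_ap (v : ℚ≥0 → F) (hv : ∀ i, ‖v i‖ ≤ 1) (x : E) : HasSum (fun i => x i • v i) (L v hv x) :=
  (Ls v hv x).hasSum

theorem L_e (v : ℚ≥0 → F) (hv : ∀ i, ‖v i‖ ≤ 1) (t : ℚ≥0) : L v hv (e t) = v t := by
  refine (L_ap v hv _).unique ?_
  convert hasSum_single (f := fun i => e t i • v i) t fun i hi => by simp [e_ap, hi]
  simp [e_ap]

omit [CompleteSpace F] in
theorem ext_e {f g : E →L[ℂ] F} (h : ∀ t, f (e t) = g (e t)) : f = g :=
  lp.ext_continuousLinearMap (by simp) fun t => ContinuousLinearMap.ext_ring (h t)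

end

structure W (w : ℚ≥0 → ℝ) : Prop where
  z : w 0 = 1
  pos : ∀ t, 0 < w t
  le : ∀ t, w t ≤ 1
  sub : ∀ s t, w (s + t) ≤ w s * w t
  ct : ∀ t, ∀ᶠ N : ℕ in atTop, w (t - (N : ℚ≥0)⁻¹) ≤ 2 * w t

variable {w : ℚ≥0 → ℝ}

noncomputable def κ (w : ℚ≥0 → ℝ) (s t : ℚ≥0) : ℂ := w (s + t) / (w s * w t)

theorem κb (H : W w) (s t : ℚ≥0) : ‖κ w s t • e (s + t)‖ ≤ 1 := by
  rw [norm_smul, e_norm, mul_one, κ, ← Complex.ofReal_mul, ← Complex.ofReal_div, Complex.norm_real,
    Real.norm_of_nonneg (div_pos (H.pos _) (mul_pos (H.pos _) (H.pos _))).le]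
  exact div_le_one_of_le₀ (H.sub s t) (mul_pos (H.pos _) (H.pos _)).le

noncomputable def Mu (H : W w) : E →L[ℂ] E →L[ℂ] E :=
  L (fun s => L (fun t => κ w s t • e (s + t)) (κb H s)) fun _ => L_norm _ _

theorem Mu_e (H : W w) (s t : ℚ≥0) : Mu H (e s) (e t) = κ w s t • e (s + t) := by
  rw [Mu, L_e, L_e]

theorem wne (H : W w) (s : ℚ≥0) : (w s : ℂ) ≠ 0 := Complex.ofReal_ne_zero.mpr (H.pos s).ne'

theorem Mu_comm (H : W w) (x y : E) : Mu H x y = Mu H y x := by
  have : Mu H = (Mu H).flip := ext_e fun s => ext_e fun t => by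
    rw [ContinuousLinearMap.flip_apply, Mu_e, Mu_e, κ, κ, add_comm, mul_comm]
  conv_lhs => rw [this]
  rfl

theorem Mu_assoc (H : W w) (x y z : E) : Mu H (Mu H x y) z = Mu H x (Mu H y z) := by
  have h1 : ∀ s t, Mu H (Mu H (e s) (e t)) = (Mu H (e s)).comp (Mu H (e t)) := fun s t =>
    ext_e fun u => by
      rw [ContinuousLinearMap.comp_apply, Mu_e, Mu_e, map_smul, map_smul,
        _root_.smul_apply, Mu_e, Mu_e, smul_smul, smul_smul, add_assoc]
      have := wne H
      simp only [κ, add_assoc]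
      congr 1
      field_simp [this s, this t, this u, this (s + t), this (t + u)]
  have h2 : ∀ s, ((Mu H).flip z).comp (Mu H (e s)) = (Mu H (e s)).comp ((Mu H).flip z) := fun s =>
    ext_e fun t => congrArg (· z) (h1 s t)
  have h3 : ((Mu H).flip z).comp ((Mu H).flip y) = (Mu H).flip (Mu H y z) :=
    ext_e fun s => congrArg (· y) (h2 s)
  exact congrArg (· x) h3

theorem Mu_one (H : W w) (x : E) : Mu H (e 0) x = x := by
  have : Mu H (e 0) = .id ℂ E := ext_e fun t => by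
    rw [Mu_e, κ, zero_add, H.z]; simp [wne H t]
  rw [this]; rfl

@[reducible] noncomputable def rg (H : W w) : NormedCommRing E :=
  { (inferInstance : NormedAddCommGroup E) with
    mul := fun x y => Mu H x y
    one := e 0
    left_distrib := fun x y z => map_add (Mu H x) y z
    right_distrib := fun x y z => congrArg (· z) (map_add (Mu H) x y)
    zero_mul := fun x => congrArg (· x) (map_zero (Mu H))
    mul_zero := fun x => map_zero (Mu H x)
    mul_assoc := Mu_assoc H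
    one_mul := Mu_one H
    mul_one := fun x => (Mu_comm H _ _).trans (Mu_one H x)
    mul_comm := Mu_comm H
    norm_mul_le := fun x y => ((Mu H x).le_opNorm y).trans (mul_le_mul_of_nonneg_right
      (((Mu H).le_opNorm x).trans (mul_le_of_le_one_left (norm_nonneg _) (L_norm _ _)))
      (norm_nonneg _)) }

theorem Mu_ap (H : W w) (x y : E) (u : ℚ≥0) :
    HasSum (fun s => if s ≤ u then x s * y (u - s) * κ w s (u - s) else 0) (Mu H x y u) := by
  have := (lp.evalCLM ℂ _ 1 u).hasSum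
    ((ContinuousLinearMap.apply ℂ E y).hasSum (L_ap _ (fun s => L_norm _ (κb H s)) x))
  refine this.congr_fun fun s => ?_
  have h2 := (lp.evalCLM ℂ _ 1 u).hasSum (L_ap _ (κb H s) y)
  change _ = x s * (L _ (κb H s) y) u
  change HasSum (fun t => y t * (κ w s t * e (s + t) u)) ((L _ (κb H s) y) u) at h2
  split_ifs with h
  · rw [h2.unique (hasSum_single (u - s) fun t ht => by
      rw [e_ap, if_neg fun a => ht (by rw [a, add_tsub_cancel_left])]; simp), e_ap,
      if_pos (add_tsub_cancel_of_le h).symm]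
    ring
  · rw [h2.unique (hasSum_zero.congr_fun ?_), mul_zero]
    intro t
    rw [e_ap, if_neg fun a => h (by rw [a]; exact le_self_add)]; simp

theorem two (H : W w) (a : E) (ha : a 0 = 0) : ∃ x B y C : E, x 0 = 0 ∧ B 0 = 0 ∧ y 0 = 0 ∧
    C 0 = 0 ∧ a = Mu H x B + Mu H y C := by
  let _ := rg H
  have : NormOneClass E := ⟨e_norm 0⟩
  let _ : NormedAlgebra ℂ E :=
    { Algebra.ofModule (R := ℂ) (A := E) (fun r x y => congrArg (· y) (map_smul (Mu H) r x))
        (fun r x y => map_smul (Mu H x) r y) with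
      norm_smul_le := norm_smul_le }
  obtain ⟨σ⟩ : Nonempty (ℕ ≃ ℚ≥0) := nonempty_equiv_of_countable
  have mu : ∀ (c d : ℂ) s t, Mu H (c • e s) (d • e t) = (c * d * κ w s t) • e (s + t) := by
    intro c d s t
    rw [map_smul, map_smul, _root_.smul_apply, Mu_e, smul_smul, smul_smul, mul_comm d]
  refine main (lp.evalCLM ℂ _ 1 0) (fun g x h => (Mu_ap H g x 0).unique
    (hasSum_zero.congr_fun fun s => ?_)) (fun t => (w t : ℂ) • e t) (fun s t => ?_) (fun t => ?_)
    (fun t ht => ?_) (fun n => a (σ n) • e (σ n)) (fun n => 2 * ‖a (σ n)‖) (fun n => by positivity)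
    ((σ.summable_iff.mpr (sm1 a).summable).mul_left 2) (fun n => ?_) a ?_
  · split_ifs with b
    · rw [le_zero_iff.mp b, show g 0 = 0 from h]; simp
    · rfl
  · refine Eq.trans ?_ (mu _ _ s t).symm
    rw [κ, mul_div_cancel₀ _ (mul_ne_zero (wne H s) (wne H t))]
  · rw [norm_smul, e_norm, mul_one, Complex.norm_real, Real.norm_of_nonneg (H.pos t).le]
    exact H.le t
  · change (w t : ℂ) * e t 0 = 0
    rw [e_ap, if_neg ht.ne, mul_zero]
  · rcases eq_or_ne (σ n) 0 with h | h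
    · exact .of_forall fun N => ⟨0, map_zero _, by simp, by rw [h, ha, zero_mul, zero_smul]⟩
    obtain ⟨k, hk⟩ := exists_nat_gt (σ n)⁻¹
    filter_upwards [H.ct (σ n), eventually_ge_atTop k] with N h1 h2
    have h3 : (N : ℚ≥0)⁻¹ < σ n := inv_lt_of_inv_lt₀ (pos_iff_ne_zero.mpr h)
      (hk.trans_le (by exact_mod_cast h2))
    refine ⟨(a (σ n) * (w (σ n - (N : ℚ≥0)⁻¹) / w (σ n) : ℝ)) • e (σ n - (N : ℚ≥0)⁻¹), ?_, ?_, ?_⟩
    · change _ * e _ 0 = 0
      rw [e_ap, if_neg (tsub_pos_of_lt h3).ne, mul_zero]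
    · rw [norm_smul, e_norm, mul_one, norm_mul, Complex.norm_real,
        Real.norm_of_nonneg (div_pos (H.pos _) (H.pos _)).le, mul_comm]
      gcongr
      exact (div_le_iff₀ (H.pos _)).mpr h1
    · refine Eq.trans ?_ (mu _ _ _ _).symm
      rw [κ, tsub_add_cancel_of_le h3.le]
      congr 1
      push_cast
      have a1 := wne H (σ n - (N : ℚ≥0)⁻¹)
      have a2 := wne H (N : ℚ≥0)⁻¹
      have a3 := wne H (σ n)
      generalize (w (σ n - (N : ℚ≥0)⁻¹) : ℂ) = p at *
      generalize (w (N : ℚ≥0)⁻¹ : ℂ) = q at *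
      field_simp
  · refine (σ.hasSum_iff (f := fun t => a t • e t)).mpr ?_
    refine (lp.hasSum_single (by simp) a).congr_fun fun t => ?_
    rw [e, ← lp.single_smul, smul_eq_mul, mul_one]

end Pool.Agent.H.MP_7607f9_an
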